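import Mathlib

/-! The slopes of a vector space are determined by the slopes of a tensor construction and Mazur's
inequality: moments and majorization. -/

set_option autoImplicit false
set_option linter.all false

namespace Pool.Agent.W5h91.Ord

open Finset

/-- The weights of a tensor construction (a polynomial representation of `GL_r`), with multiplicity:
a multiset of vectors of exponents which is invariant under permutations of the coordinates. The
construction is nondegenerate: its kernel is finite, in other words, the weights are not all constant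
if `r ≥ 2` and not all zero if `r = 1`. -/
structure IsConstruction {r : ℕ} (W : Multiset (Fin r → ℕ)) : Prop where
  perm : ∀ s : Equiv.Perm (Fin r), W.map (fun w => w ∘ s) = W
  sep : ∀ i j, i ≠ j → ∃ w ∈ W, w i ≠ w j
  pos : ∀ i, ∃ w ∈ W, w i ≠ 0

section moments

variable {r : ℕ} (W : Multiset (Fin r → ℕ))

/-- first moments -/
noncomputable def fm (i : Fin r) : ℝ := (W.map fun w => (w i : ℝ)).sum

/-- second moments -/
noncomputable def sm (i j : Fin r) : ℝ := (W.map fun w => (w i : ℝ) * (w j : ℝ)).sum

variable {W}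

theorem fm_perm (hW : IsConstruction W) (s : Equiv.Perm (Fin r)) (i : Fin r) :
    fm W (s i) = fm W i := by
  conv_rhs => rw [← hW.perm s]
  unfold fm
  rw [Multiset.map_map]
  rfl

theorem sm_perm (hW : IsConstruction W) (s : Equiv.Perm (Fin r)) (i j : Fin r) :
    sm W (s i) (s j) = sm W i j := by
  conv_rhs => rw [← hW.perm s]
  unfold sm
  rw [Multiset.map_map]
  rfl

theorem fm_const (hW : IsConstruction W) (i j : Fin r) : fm W i = fm W j := by
  have := fm_perm hW (Equiv.swap i j) i
  rw [Equiv.swap_apply_left] at this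
  exact this.symm

theorem exists_perm2 {i j k l : Fin r} (hij : i ≠ j) (hkl : k ≠ l) :
    ∃ s : Equiv.Perm (Fin r), s i = k ∧ s j = l := by
  refine ⟨(Equiv.swap i k).trans (Equiv.swap (Equiv.swap i k j) l), ?_, ?_⟩
  · rw [Equiv.trans_apply, Equiv.swap_apply_left]
    apply Equiv.swap_apply_of_ne_of_ne
    · intro h
      have h2 : Equiv.swap i k i = Equiv.swap i k j := by
        rw [Equiv.swap_apply_left]; exact h
      exact hij ((Equiv.swap i k).injective h2)
    · exact hkl
  · rw [Equiv.trans_apply, Equiv.swap_apply_left]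

theorem sm_const (hW : IsConstruction W) {i j k l : Fin r} (hij : i ≠ j) (hkl : k ≠ l) :
    sm W i j = sm W k l := by
  obtain ⟨s, h1, h2⟩ := exists_perm2 hij hkl
  rw [← sm_perm hW s i j, h1, h2]

theorem sm_diag (hW : IsConstruction W) (i k : Fin r) : sm W i i = sm W k k := by
  have := sm_perm hW (Equiv.swap i k) i i
  rw [Equiv.swap_apply_left] at this
  exact this.symm

theorem sum_pos_of_mem (f : (Fin r → ℕ) → ℝ) (hf : ∀ w, 0 ≤ f w) {w : Fin r → ℕ} (hw : w ∈ W)
    (h0 : 0 < f w) : 0 < (W.map f).sum := by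
  obtain ⟨V, rfl⟩ := Multiset.exists_cons_of_mem hw
  rw [Multiset.map_cons, Multiset.sum_cons]
  have : 0 ≤ (V.map f).sum := by
    apply Multiset.sum_nonneg
    intro x hx
    obtain ⟨v, -, rfl⟩ := Multiset.mem_map.mp hx
    exact hf v
  linarith

/-- every coordinate is positive in some weight -/
theorem exists_pos (hW : IsConstruction W) (i : Fin r) : ∃ w ∈ W, 0 < w i := by
  obtain ⟨w, hw, h⟩ := hW.pos i
  exact ⟨w, hw, Nat.pos_of_ne_zero h⟩

theorem fm_pos (hW : IsConstruction W) (i : Fin r) : 0 < fm W i := by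
  obtain ⟨w, hw, h⟩ := exists_pos hW i
  exact sum_pos_of_mem _ (fun w => Nat.cast_nonneg _) hw (by exact_mod_cast h)

theorem sm_lt (hW : IsConstruction W) {i j : Fin r} (hij : i ≠ j) : sm W i j < sm W i i := by
  obtain ⟨a, b, hne⟩ : ∃ a b : Fin r, a ≠ b := ⟨i, j, hij⟩
  obtain ⟨w, hw, hab⟩ := hW.sep a b hne
  have h1 : 0 < (W.map fun w : Fin r → ℕ => ((w a : ℝ) - w b) ^ 2).sum := by
    apply sum_pos_of_mem _ (fun w => sq_nonneg _) hw
    have : (w a : ℝ) - w b ≠ 0 := by
      rw [sub_ne_zero]
      exact_mod_cast hab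
    positivity
  have h2 : (W.map fun w : Fin r → ℕ => ((w a : ℝ) - w b) ^ 2).sum =
      sm W a a + sm W b b - 2 * sm W a b := by
    unfold sm
    induction W using Multiset.induction_on with
    | empty => simp
    | cons v V ih =>
      simp only [Multiset.map_cons, Multiset.sum_cons] at *
      have ih' : (V.map fun w : Fin r → ℕ => ((w a : ℝ) - w b) ^ 2).sum =
        (V.map fun w => (w a : ℝ) * (w a : ℝ)).sum + (V.map fun w => (w b : ℝ) * (w b : ℝ)).sum -
        2 * (V.map fun w => (w a : ℝ) * (w b : ℝ)).sum := by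
        clear h1 hw hW ih
        induction V using Multiset.induction_on with
        | empty => simp
        | cons v V ih => 
          simp only [Multiset.map_cons, Multiset.sum_cons]
          rw [ih]; ring
      rw [ih']; ring
  rw [sm_diag hW b a] at h2
  rw [sm_const hW hij hne, sm_diag hW i a]
  linarith

theorem first_moment (hW : IsConstruction W) (x : Fin r → ℝ) (i₀ : Fin r) :
    (W.map fun w => ∑ i, (w i : ℝ) * x i).sum = fm W i₀ * ∑ i, x i := by
  have h1 : ∀ V : Multiset (Fin r → ℕ), (V.map fun w => ∑ i, (w i : ℝ) * x i).sum =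
      ∑ i, fm V i * x i := by
    intro V
    induction V using Multiset.induction_on with
    | empty => simp [fm]
    | cons v V ih =>
      rw [Multiset.map_cons, Multiset.sum_cons, ih, ← Finset.sum_add_distrib]
      apply Finset.sum_congr rfl
      intro i _
      unfold fm
      rw [Multiset.map_cons, Multiset.sum_cons]
      ring
  rw [h1, Finset.mul_sum]
  apply Finset.sum_congr rfl
  intro i _
  rw [fm_const hW i i₀]

theorem second_moment (hW : IsConstruction W) (x : Fin r → ℝ) {a b : Fin r} (hab : a ≠ b) :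
    (W.map fun w => (∑ i, (w i : ℝ) * x i) ^ 2).sum =
      sm W a b * (∑ i, x i) ^ 2 + (sm W a a - sm W a b) * ∑ i, x i ^ 2 := by
  classical
  have h1 : ∀ V : Multiset (Fin r → ℕ), (V.map fun w => (∑ i, (w i : ℝ) * x i) ^ 2).sum =
      ∑ i, ∑ j, sm V i j * (x i * x j) := by
    intro V
    induction V using Multiset.induction_on with
    | empty => simp [sm]
    | cons v V ih =>
      rw [Multiset.map_cons, Multiset.sum_cons, ih, sq, Finset.sum_mul_sum, ← Finset.sum_add_distrib]
      apply Finset.sum_congr rfl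
      intro i _
      rw [← Finset.sum_add_distrib]
      apply Finset.sum_congr rfl
      intro j _
      unfold sm
      rw [Multiset.map_cons, Multiset.sum_cons]
      ring
  rw [h1]
  have h2 : ∀ i j, sm W i j * (x i * x j) =
      sm W a b * (x i * x j) + if i = j then (sm W a a - sm W a b) * (x i * x i) else 0 := by
    intro i j
    by_cases hij : i = j
    · subst hij
      rw [if_pos rfl, sm_diag hW i a]
      ring
    · rw [if_neg hij, sm_const hW hij hab, add_zero]
  simp_rw [h2, Finset.sum_add_distrib, Finset.sum_ite_eq, Finset.mem_univ, if_true]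
  rw [sq, Finset.sum_mul_sum, Finset.mul_sum, Finset.mul_sum]
  congr 1
  · apply Finset.sum_congr rfl
    intro i _
    rw [Finset.mul_sum]
  · apply Finset.sum_congr rfl
    intro i _
    ring

/-- the first two moments of the slopes are determined by the slopes of a tensor construction -/
theorem moments_eq (hW : IsConstruction W) (x h : Fin r → ℝ)
    (he : (W.map fun w => ∑ i, (w i : ℝ) * x i) = W.map fun w => ∑ i, (w i : ℝ) * h i) :
    ∑ i, x i = ∑ i, h i ∧ ∑ i, x i ^ 2 = ∑ i, h i ^ 2 := by
  rcases isEmpty_or_nonempty (Fin r) with hemp | ⟨⟨c⟩⟩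
  · simp
  have h1 := congrArg Multiset.sum he
  rw [first_moment hW x c, first_moment hW h c] at h1
  have h2 : ∑ i, x i = ∑ i, h i := mul_left_cancel₀ (fm_pos hW c).ne' h1
  refine ⟨h2, ?_⟩
  by_cases hne : ∃ a b : Fin r, a ≠ b
  swap
  · push Not at hne
    have h0 : ∀ f : Fin r → ℝ, ∑ i, f i = f c := fun f =>
      Finset.sum_eq_single c (fun b _ hb => absurd (hne b c) hb) (fun h => absurd (Finset.mem_univ c) h)
    rw [h0, h0] at h2 ⊢
    rw [h2]
  obtain ⟨a, b, hne⟩ := hne
  have h3 := congrArg (fun M : Multiset ℝ => (M.map fun y => y ^ 2).sum) he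
  simp only [Multiset.map_map, Function.comp_def] at h3
  rw [second_moment hW x hne, second_moment hW h hne, h2] at h3
  have h4 : (sm W a a - sm W a b) * ∑ i, x i ^ 2 = (sm W a a - sm W a b) * ∑ i, h i ^ 2 := by
    linarith
  exact mul_left_cancel₀ (sub_pos.mpr (sm_lt hW hne)).ne' h4

end moments

section major

/-- strict convexity -/
theorem eq_of_major (r : ℕ) (x h : ℕ → ℝ) (hx : ∀ i, i + 1 < r → x i ≤ x (i + 1))
    (hmaj : ∀ k < r, ∑ i ∈ range k, h i ≤ ∑ i ∈ range k, x i)
    (hsum : ∑ i ∈ range r, x i = ∑ i ∈ range r, h i)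
    (hsq : ∑ i ∈ range r, x i ^ 2 = ∑ i ∈ range r, h i ^ 2) : ∀ i < r, x i = h i := by
  have h1 : 0 ≤ ∑ i ∈ range r, x i * (h i - x i) := by
    have h2 := Finset.sum_range_by_parts x (fun i => h i - x i) r
    simp only [smul_eq_mul] at h2
    rw [h2]
    have h3 : ∑ i ∈ range r, (h i - x i) = 0 := by
      rw [Finset.sum_sub_distrib, hsum, sub_self]
    rw [h3, mul_zero, zero_sub, Left.nonneg_neg_iff]
    apply Finset.sum_nonpos
    intro i hi
    rw [mem_range] at hi
    apply mul_nonpos_of_nonneg_of_nonpos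
    · exact sub_nonneg.mpr (hx i (by omega))
    · rw [Finset.sum_sub_distrib]
      exact sub_nonpos.mpr (hmaj (i + 1) (by omega))
  have h4 : ∑ i ∈ range r, (h i - x i) ^ 2 = - 2 * ∑ i ∈ range r, x i * (h i - x i) := by
    have h5 : ∑ i ∈ range r, (h i - x i) ^ 2 = ∑ i ∈ range r, h i ^ 2 - ∑ i ∈ range r, x i ^ 2
        - 2 * ∑ i ∈ range r, x i * (h i - x i) := by
      rw [Finset.mul_sum, ← Finset.sum_sub_distrib, ← Finset.sum_sub_distrib]
      apply Finset.sum_congr rfl
      intro i _
      ring
    rw [h5, hsq]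
    ring
  have h6 : ∑ i ∈ range r, (h i - x i) ^ 2 = 0 := by
    apply le_antisymm
    · rw [h4]; linarith
    · exact Finset.sum_nonneg fun i _ => sq_nonneg _
  intro i hi
  have h7 := (Finset.sum_eq_zero_iff_of_nonneg (fun i _ => sq_nonneg (h i - x i))).mp h6 i
    (mem_range.mpr hi)
  have h8 : h i - x i = 0 := by
    simpa using h7
  linarith

/-- from truncated sums to partial sums -/
theorem partial_of_min (r : ℕ) (x h : ℕ → ℝ) (k : ℕ) (hk : k < r)
    (hh1 : ∀ i < k, h i ≤ h k) (hh2 : ∀ i, k ≤ i → i < r → h k ≤ h i)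
    (hmin : ∑ i ∈ range r, min (h k) (h i) ≤ ∑ i ∈ range r, min (h k) (x i)) :
    ∑ i ∈ range k, h i ≤ ∑ i ∈ range k, x i := by
  have e : range r = range (k + (r - k)) := by congr 1; omega
  rw [e, Finset.sum_range_add, Finset.sum_range_add] at hmin
  have h1 : ∑ i ∈ range k, min (h k) (h i) = ∑ i ∈ range k, h i := by
    apply Finset.sum_congr rfl
    intro i hi
    exact min_eq_right (hh1 i (mem_range.mp hi))
  have h2 : ∑ i ∈ range (r - k), min (h k) (h (k + i)) = ∑ i ∈ range (r - k), h k := by
    apply Finset.sum_congr rfl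
    intro i hi
    have := mem_range.mp hi
    exact min_eq_left (hh2 (k + i) (by omega) (by omega))
  have h3 : ∑ i ∈ range (r - k), min (h k) (x (k + i)) ≤ ∑ i ∈ range (r - k), h k :=
    Finset.sum_le_sum fun i _ => min_le_left _ _
  have h4 : ∑ i ∈ range k, min (h k) (x i) ≤ ∑ i ∈ range k, x i :=
    Finset.sum_le_sum fun i _ => min_le_right _ _
  rw [h1, h2] at hmin
  linarith

end major

end Pool.Agent.W5h91.Ord
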