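import Pool.Agent.R915.O1
import Pool.Agent.W5h91.Ord.Moment

/-! The Newton slopes of a vector space and of its tensor constructions. -/

set_option autoImplicit false
set_option linter.all false

namespace Pool.Agent.W5h91.Ord

open Polynomial Pool.Agent.W528.Ord Pool.Agent.R915.Ord Finset

/-- Mazur's inequality: `F` is monic of degree `r` and its Newton polygon at the prime number `p` lies
above the polygon with the slopes `h` (given in increasing order) -/
def MazurAt (p : ℕ) {r : ℕ} (F : ℤ[X]) (h : Fin r → ℕ) : Prop :=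
  F.Monic ∧ F.natDegree = r ∧ ∀ k ≤ r, (p : ℤ) ^ ((List.ofFn h).take k).sum ∣ F.coeff (r - k)

theorem norm_int_le {p : ℕ} [Fact p.Prime] (a : ℤ) (n : ℕ) (h : (p : ℤ) ^ n ∣ a) :
    ‖(a : PadicAlgCl p)‖ ≤ (1 / (p : ℝ)) ^ n := by
  obtain ⟨b, rfl⟩ := h
  push_cast
  rw [norm_mul, norm_pow]
  have h1 : ‖((p : ℕ) : PadicAlgCl p)‖ = 1 / (p : ℝ) := norm_p
  rw [h1]
  have h2 : ‖(b : PadicAlgCl p)‖ ≤ 1 := IsUltrametricDist.norm_intCast_le_one _ b
  have h3 : (0 : ℝ) ≤ (1 / (p : ℝ)) ^ n := by positivity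
  nlinarith

theorem min_ineq {p : ℕ} [Fact p.Prime] {r : ℕ} (F : ℤ[X]) (h : Fin r → ℕ) (hM : MazurAt p F h)
    (y : Fin r → PadicAlgCl p)
    (hy : (F.map (Int.castRingHom (PadicAlgCl p))).roots = univ.val.map y) (x : Fin r → ℝ)
    (hx : ∀ i, ‖y i‖ = (1 / (p : ℝ)) ^ (x i)) (t : ℕ) :
    ∑ i, min (t : ℝ) (h i : ℝ) ≤ ∑ i, min (t : ℝ) (x i) := by
  have hp1 : (1 : ℝ) < p := by exact_mod_cast (Fact.out : p.Prime).one_lt
  set q : ℝ := 1 / (p : ℝ) with hq
  have hq0 : 0 < q := by positivity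
  have hq1 : q < 1 := by rw [hq, div_lt_one (by linarith)]; exact hp1
  obtain ⟨hm, hd, hle⟩ := hM
  have key := gauss_le (F.map (Int.castRingHom (PadicAlgCl p))) r (hm.map _)
    (by rw [hm.natDegree_map, hd]) (IsAlgClosed.splits _) q hq0 (List.ofFn h) (by simp)
    (by
      intro k hk
      rw [coeff_map]
      exact norm_int_le _ _ (hle k hk)) (q ^ t) (by positivity)
  rw [hy, Multiset.map_map, Multiset.map_map] at key
  have e1 : (univ.val.map ((fun x => max (q ^ t) x) ∘ (fun y : PadicAlgCl p => ‖y‖) ∘ y)).prod =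
      q ^ (∑ i, min (t : ℝ) (x i)) := by
    rw [Real.rpow_sum_of_pos hq0]
    change ∏ i, _ = _
    apply Finset.prod_congr rfl
    intro i _
    simp only [Function.comp]
    rw [hx i, ← Real.rpow_natCast]
    rcases le_total (t : ℝ) (x i) with hle | hle
    · rw [min_eq_left hle, max_eq_left]
      exact Real.rpow_le_rpow_of_exponent_ge hq0 hq1.le hle
    · rw [min_eq_right hle, max_eq_right]
      exact Real.rpow_le_rpow_of_exponent_ge hq0 hq1.le hle
  have e2 : ((List.ofFn h).map fun a => max (q ^ t) (q ^ a)).prod =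
      q ^ (∑ i, min (t : ℝ) (h i : ℝ)) := by
    rw [Real.rpow_sum_of_pos hq0, List.map_ofFn, List.prod_ofFn]
    apply Finset.prod_congr rfl
    intro i _
    simp only [Function.comp]
    rw [← Real.rpow_natCast, ← Real.rpow_natCast]
    rcases le_total (t : ℝ) (h i) with hle | hle
    · rw [min_eq_left hle, max_eq_left]
      exact Real.rpow_le_rpow_of_exponent_ge hq0 hq1.le hle
    · rw [min_eq_right hle, max_eq_right]
      exact Real.rpow_le_rpow_of_exponent_ge hq0 hq1.le hle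
  have e1' : (univ.val.map (((fun x => max (q ^ t) x) ∘ (fun y : PadicAlgCl p => ‖y‖)) ∘ y)).prod =
      q ^ (∑ i, min (t : ℝ) (x i)) := e1
  rw [e1', e2] at key
  exact (Real.rpow_le_rpow_left_iff_of_base_lt_one hq0 hq1).mp key

/-- **Mazur's inequality and the slopes of a tensor construction determine the slopes** -/
theorem slopes_eq {p : ℕ} [Fact p.Prime] {r : ℕ} {W : Multiset (Fin r → ℕ)} (hW : IsConstruction W)
    (F : ℤ[X]) (h : Fin r → ℕ) (hh : Monotone h) (hM : MazurAt p F h) (y : Fin r → PadicAlgCl p)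
    (hy : (F.map (Int.castRingHom (PadicAlgCl p))).roots = univ.val.map y)
    (hT : (W.map fun w => ‖∏ i, y i ^ w i‖) = W.map fun w => (1 / (p : ℝ)) ^ (∑ i, w i * h i)) :
    ((F.map (Int.castRingHom (PadicAlgCl p))).roots.map fun y => ‖y‖) =
      (univ.val.map h).map fun a => (1 / (p : ℝ)) ^ a := by
  have hp1 : (1 : ℝ) < p := by exact_mod_cast (Fact.out : p.Prime).one_lt
  have hq0 : 0 < 1 / (p : ℝ) := by positivity
  have hq1 : 1 / (p : ℝ) < 1 := by rw [div_lt_one (by linarith)]; exact hp1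
  have hlq : Real.log (1 / (p : ℝ)) ≠ 0 := (Real.log_neg hq0 hq1).ne
  have hy0 : ∀ i, ‖y i‖ ≠ 0 := by
    intro i hi
    obtain ⟨w, hw, hwi⟩ := exists_pos hW i
    have h1 : ‖∏ j, y j ^ w j‖ ∈ W.map fun w => ‖∏ i, y i ^ w i‖ := Multiset.mem_map_of_mem _ hw
    rw [hT] at h1
    obtain ⟨v, -, hv⟩ := Multiset.mem_map.mp h1
    have h2 : ∏ j, y j ^ w j = 0 := by
      apply Finset.prod_eq_zero (Finset.mem_univ i)
      rw [norm_eq_zero.mp hi, zero_pow hwi.ne']
    rw [h2, norm_zero] at hv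
    exact (pow_pos hq0 _).ne' hv
  set x : Fin r → ℝ := fun i => Real.log ‖y i‖ / Real.log (1 / (p : ℝ)) with hxdef
  have hx : ∀ i, ‖y i‖ = (1 / (p : ℝ)) ^ (x i) := by
    intro i
    have hpos : 0 < ‖y i‖ := lt_of_le_of_ne (norm_nonneg _) (Ne.symm (hy0 i))
    rw [Real.rpow_def_of_pos hq0, hxdef]
    simp only
    rw [mul_div_cancel₀ _ hlq, Real.exp_log hpos]
  have hmom := moments_eq hW x (fun i => (h i : ℝ)) (by
    have h1 := congrArg (Multiset.map fun z : ℝ => Real.log z / Real.log (1 / (p : ℝ))) hT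
    rw [Multiset.map_map, Multiset.map_map] at h1
    have e1 : ((fun z : ℝ => Real.log z / Real.log (1 / (p : ℝ))) ∘ fun w : Fin r → ℕ =>
        ‖∏ i, y i ^ w i‖) = fun w => ∑ i, (w i : ℝ) * x i := by
      funext w
      simp only [Function.comp]
      rw [norm_prod, Real.log_prod (fun i _ => by rw [norm_pow]; exact pow_ne_zero _ (hy0 i)),
        Finset.sum_div]
      apply Finset.sum_congr rfl
      intro i _
      rw [norm_pow, Real.log_pow, hxdef]
      simp only
      ring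
    have e2 : ((fun z : ℝ => Real.log z / Real.log (1 / (p : ℝ))) ∘ fun w : Fin r → ℕ =>
        (1 / (p : ℝ)) ^ (∑ i, w i * h i)) = fun w => ∑ i, (w i : ℝ) * (h i : ℝ) := by
      funext w
      simp only [Function.comp]
      rw [Real.log_pow, mul_div_assoc, div_self hlq, mul_one]
      push_cast
      rfl
    rw [e1, e2] at h1
    exact h1)
  -- sort
  set s := Tuple.sort x with hs
  set x' : Fin r → ℝ := x ∘ s with hx'
  have hmono : Monotone x' := Tuple.monotone_sort x
  have hsum' : ∑ i, x' i = ∑ i, (h i : ℝ) := by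
    rw [← hmom.1]; exact Equiv.sum_comp s x
  have hsq' : ∑ i, x' i ^ 2 = ∑ i, (h i : ℝ) ^ 2 := by
    rw [← hmom.2]; exact Equiv.sum_comp s (fun i => x i ^ 2)
  have hmin' : ∀ t : ℕ, ∑ i, min (t : ℝ) (h i : ℝ) ≤ ∑ i, min (t : ℝ) (x' i) := by
    intro t
    refine (min_ineq F h hM y hy x hx t).trans (le_of_eq ?_)
    exact (Equiv.sum_comp s (fun i => min (t : ℝ) (x i))).symm
  -- extend to sequences
  set X : ℕ → ℝ := fun n => if hn : n < r then x' ⟨n, hn⟩ else 0 with hX
  set G : ℕ → ℝ := fun n => if hn : n < r then (h ⟨n, hn⟩ : ℝ) else 0 with hG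
  have hXi : ∀ i : Fin r, X i.val = x' i := fun i => by simp [hX]
  have hGi : ∀ i : Fin r, G i.val = (h i : ℝ) := fun i => by simp [hG]
  have hsumf : ∀ (f : ℝ → ℝ), ∑ i, f (x' i) = ∑ i ∈ range r, f (X i) := by
    intro f
    rw [← Fin.sum_univ_eq_sum_range (fun n => f (X n)) r]
    apply Finset.sum_congr rfl
    intro i _
    rw [hXi]
  have hsumg : ∀ (f : ℝ → ℝ), ∑ i, f (h i : ℝ) = ∑ i ∈ range r, f (G i) := by
    intro f
    rw [← Fin.sum_univ_eq_sum_range (fun n => f (G n)) r]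
    apply Finset.sum_congr rfl
    intro i _
    rw [hGi]
  have hGmono : ∀ i j, i ≤ j → j < r → G i ≤ G j := by
    intro i j hij hj
    have hi : i < r := lt_of_le_of_lt hij hj
    simp only [hG, dif_pos hi, dif_pos hj]
    exact_mod_cast hh (show (⟨i, hi⟩ : Fin r) ≤ ⟨j, hj⟩ from hij)
  have key := eq_of_major r X G
    (by
      intro i hi
      have hi' : i < r := by omega
      simp only [hX, dif_pos hi, dif_pos hi']
      apply hmono
      exact Nat.le_succ i)
    (by
      intro k hk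
      apply partial_of_min r X G k hk (fun i hi => hGmono i k hi.le hk) (fun i hki hi => hGmono k i hki hi)
      have h1 := hmin' (h ⟨k, hk⟩)
      have h2 : G k = ((h ⟨k, hk⟩ : ℕ) : ℝ) := by simp only [hG, dif_pos hk]
      rw [h2, ← hsumf (fun z => min ((h ⟨k, hk⟩ : ℕ) : ℝ) z), ← hsumg (fun z => min ((h ⟨k, hk⟩ : ℕ) : ℝ) z)]
      exact h1)
    (by
      have h1 := hsumf id
      have h2 := hsumg id
      simp only [id] at h1 h2
      rw [← h1, ← h2]; exact hsum')
    (by rw [← hsumf (fun z => z ^ 2), ← hsumg (fun z => z ^ 2)]; exact hsq')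
  have hfin : ∀ i, x' i = (h i : ℝ) := by
    intro i
    rw [← hXi, ← hGi]
    exact key i.val i.isLt
  rw [hy, Multiset.map_map, Multiset.map_map]
  have h1 : (univ.val.map ((fun y : PadicAlgCl p => ‖y‖) ∘ y)) =
      univ.val.map (((fun y : PadicAlgCl p => ‖y‖) ∘ y) ∘ s) := by
    rw [← Multiset.map_map (g := ((fun y : PadicAlgCl p => ‖y‖) ∘ y)) (f := s)]
    congr 1
    have := Finset.map_univ_equiv s
    have h2 := congrArg Finset.val this
    rw [Finset.map_val] at h2
    exact h2.symm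
  rw [h1]
  apply Multiset.map_congr rfl
  intro i _
  simp only [Function.comp]
  rw [hx (s i), ← Real.rpow_natCast]
  congr 1
  exact hfin i

end Pool.Agent.W5h91.Ord
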